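import Mathlib

/-!
Co-chordality of jet graphs of co-chordal graphs of diameter two.
-/

namespace Pool.Agent.Results.MP_bdbea1_co.JetCoChordal

variable {V W : Type*}

/-- `H` is chordal: every cycle `c 0, c 1, …, c (k - 1)` of length `k ≥ 4` in `H` has a chord,
that is, two vertices of the cycle that are not consecutive on it are adjacent. -/
def IsChordal (H : SimpleGraph W) : Prop :=
  ∀ k : ℕ, 4 ≤ k → ∀ c : ZMod k → W, Function.Injective c → (∀ i, H.Adj (c i) (c (i + 1))) →
    ∃ i j, j ≠ i + 1 ∧ i ≠ j + 1 ∧ H.Adj (c i) (c j)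

/-- `H` is co-chordal: its complement is chordal. -/
def IsCoChordal (H : SimpleGraph W) : Prop := IsChordal Hᶜ

/-- The graph of `s`-jets of `G`. -/
def jetGraph (s : ℕ) (G : SimpleGraph V) : SimpleGraph (V × Fin (s + 1)) where
  Adj p q := G.Adj p.1 q.1 ∧ (p.2 : ℕ) + (q.2 : ℕ) ≤ s
  symm := by
    constructor
    rintro p q ⟨h1, h2⟩
    exact ⟨h1.symm, by omega⟩
  loopless := by
    constructor
    rintro p ⟨h1, _⟩
    exact G.loopless.irrefl _ h1

/-- `G` is connected of diameter two. -/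
def HasDiamTwo (G : SimpleGraph V) : Prop :=
  G.Connected ∧ (∀ u v, G.dist u v ≤ 2) ∧ ∃ u v, G.dist u v = 2

section zmod

variable {k : ℕ}

theorem zne {a b : ℕ} (ha : a < k) (hb : b < k) (hab : a ≠ b) :
    (a : ZMod k) ≠ (b : ZMod k) := by
  intro h
  rw [ZMod.natCast_eq_natCast_iff'] at h
  rw [Nat.mod_eq_of_lt ha, Nat.mod_eq_of_lt hb] at h
  exact hab h

theorem one_ne (hk : 4 ≤ k) : (1 : ZMod k) ≠ 0 := by
  have := zne (k := k) (a := 1) (b := 0) (by omega) (by omega) (by omega)
  simpa using this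

theorem two_ne (hk : 4 ≤ k) : (2 : ZMod k) ≠ 0 := by
  have := zne (k := k) (a := 2) (b := 0) (by omega) (by omega) (by omega)
  simpa using this

theorem three_ne (hk : 4 ≤ k) : (3 : ZMod k) ≠ 0 := by
  have := zne (k := k) (a := 3) (b := 0) (by omega) (by omega) (by omega)
  simpa using this

end zmod

/-- A chordal graph has no induced 4-cycle. -/
theorem IsChordal.four {H : SimpleGraph W} (h : IsChordal H) {p q r t : W} (hpq : H.Adj p q)
    (hqr : H.Adj q r) (hrt : H.Adj r t) (htp : H.Adj t p) (hpr : p ≠ r) (hqt : q ≠ t) :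
    H.Adj p r ∨ H.Adj q t := by
  let c : ZMod 4 → W := fun i => (![p, q, r, t] : Fin 4 → W) i
  have h0 : c 0 = p := rfl
  have h1 : c 1 = q := rfl
  have h2 : c 2 = r := rfl
  have h3 : c 3 = t := rfl
  have hcases : ∀ i : ZMod 4, i = 0 ∨ i = 1 ∨ i = 2 ∨ i = 3 := by decide
  have hinj : Function.Injective c := by
    intro i j hij
    rcases hcases i with rfl | rfl | rfl | rfl <;> rcases hcases j with rfl | rfl | rfl | rfl <;>
      simp only [h0, h1, h2, h3] at hij <;>
      first
        | rfl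
        | exact absurd hij hpq.ne
        | exact absurd hij.symm hpq.ne
        | exact absurd hij hqr.ne
        | exact absurd hij.symm hqr.ne
        | exact absurd hij hrt.ne
        | exact absurd hij.symm hrt.ne
        | exact absurd hij htp.ne
        | exact absurd hij.symm htp.ne
        | exact absurd hij hpr
        | exact absurd hij.symm hpr
        | exact absurd hij hqt
        | exact absurd hij.symm hqt
  have hadj : ∀ i, H.Adj (c i) (c (i + 1)) := by
    intro i
    rcases hcases i with rfl | rfl | rfl | rfl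
    · exact hpq
    · exact hqr
    · exact hrt
    · exact htp
  obtain ⟨i, j, hij1, hij2, hij3⟩ := h 4 le_rfl c hinj hadj
  have hd : ∀ i j : ZMod 4, j ≠ i + 1 → i ≠ j + 1 → i ≠ j →
      (i = 0 ∧ j = 2) ∨ (i = 2 ∧ j = 0) ∨ (i = 1 ∧ j = 3) ∨ (i = 3 ∧ j = 1) := by decide
  have hne : i ≠ j := by
    rintro rfl
    exact hij3.ne rfl
  rcases hd i j hij1 hij2 hne with ⟨rfl, rfl⟩ | ⟨rfl, rfl⟩ | ⟨rfl, rfl⟩ | ⟨rfl, rfl⟩
  · exact Or.inl hij3
  · exact Or.inl hij3.symm
  · exact Or.inr hij3
  · exact Or.inr hij3.symm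

/-- A graph with a perfect elimination order is chordal. -/
theorem isChordal_of_order {H : SimpleGraph W} (f : W → ℕ) (hf : Function.Injective f)
    (h : ∀ x y z, f x < f y → f x < f z → y ≠ z → H.Adj x y → H.Adj x z → H.Adj y z) :
    IsChordal H := by
  intro k hk c hc hadj
  have : NeZero k := ⟨by omega⟩
  obtain ⟨i, hi⟩ := Finite.exists_min (fun i => f (c i))
  have hlt : ∀ j, j ≠ i → f (c i) < f (c j) := by
    intro j hj
    refine lt_of_le_of_ne (hi j) fun e => hj ?_
    exact (hc (hf e)).symm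
  have e1 : i + 1 ≠ i := by
    intro e
    exact one_ne hk (by linear_combination e)
  have e2 : i - 1 ≠ i := by
    intro e
    exact one_ne hk (by linear_combination -e)
  have a1 := hadj i
  have a2 := (hadj (i - 1)).symm
  rw [sub_add_cancel] at a2
  refine ⟨i + 1, i - 1, ?_, ?_, ?_⟩
  · intro e
    exact three_ne hk (by linear_combination -e)
  · intro e
    exact one_ne hk (by linear_combination e)
  · refine h (c i) _ _ (hlt _ e1) (hlt _ e2) ?_ a1 a2
    intro e
    have := hc e
    exact two_ne hk (by linear_combination this)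

/-- If non-adjacency is transitive, then all jet graphs are co-chordal. -/
theorem jet_coChordal_of_trans (G : SimpleGraph V)
    (hG : ∀ u v w, ¬ G.Adj u v → ¬ G.Adj v w → ¬ G.Adj u w) (s : ℕ) :
    IsCoChordal (jetGraph s G) := by
  intro k hk c hc hadj
  have : NeZero k := ⟨by omega⟩
  by_contra hcon
  push Not at hcon
  obtain ⟨i, hi⟩ := Finite.exists_max (fun i => ((c i).2 : ℕ))
  have n1 := one_ne hk
  have n2 := two_ne hk
  have n3 := three_ne hk
  have hvw : (jetGraph s G).Adj (c i) (c (i + 2)) := by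
    have h1 := hcon i (i + 2) (fun e => n1 (by linear_combination e))
      (fun e => n3 (by linear_combination -e))
    rw [SimpleGraph.compl_adj] at h1
    by_contra h2
    exact h1 ⟨fun e => n2 (by linear_combination -(hc e)), h2⟩
  have hpq : (jetGraph s G).Adj (c (i + 1)) (c (i + 3)) := by
    have h1 := hcon (i + 1) (i + 3) (fun e => n1 (by linear_combination e))
      (fun e => n3 (by linear_combination -e))
    rw [SimpleGraph.compl_adj] at h1
    by_contra h2
    exact h1 ⟨fun e => n2 (by linear_combination -(hc e)), h2⟩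
  have hpw := (hadj (i + 1)).2
  have hwq := (hadj (i + 2)).2
  have e12 : i + 1 + 1 = i + 2 := by ring
  have e23 : i + 2 + 1 = i + 3 := by ring
  rw [e12] at hpw
  rw [e23] at hwq
  have hp := hi (i + 1)
  have hq := hi (i + 3)
  have h1 : ¬ G.Adj (c (i + 1)).1 (c (i + 2)).1 := by
    intro e
    apply hpw
    refine ⟨e, ?_⟩
    have := hvw.2
    omega
  have h2 : ¬ G.Adj (c (i + 2)).1 (c (i + 3)).1 := by
    intro e
    apply hwq
    refine ⟨e, ?_⟩
    have := hvw.2
    omega
  exact hG _ _ _ h1 h2 hpq.1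

/-- If `G` has diameter two and the first two jet graphs are co-chordal, then non-adjacency in
`G` is transitive. -/
theorem trans_of_jets (G : SimpleGraph V) (hG : HasDiamTwo G) (h1 : IsCoChordal (jetGraph 1 G))
    (h2 : IsCoChordal (jetGraph 2 G)) (u v w : V) (huv : ¬ G.Adj u v) (hvw : ¬ G.Adj v w) :
    ¬ G.Adj u w := by
  intro huw
  -- rename: `v` is adjacent neither to `u` nor to `w`, and `u ~ w`
  have hvu : v ≠ u := by rintro rfl; exact hvw huw
  have hvw' : v ≠ w := by rintro rfl; exact huv huw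
  -- common neighbour of `v` and `u`
  obtain ⟨z, hz1, hz2⟩ : ∃ z, G.Adj v z ∧ G.Adj z u := by
    obtain ⟨p, hp⟩ := hG.1.exists_walk_length_eq_dist v u
    have hle := hG.2.1 v u
    cases p with
    | nil => exact absurd rfl hvu
    | @cons _ m _ hadj q =>
      cases q with
      | nil => exact absurd hadj.symm huv
      | @cons _ m' _ hadj' q' =>
        cases q' with
        | nil => exact ⟨m, hadj, hadj'⟩
        | cons h'' q'' =>
          simp only [SimpleGraph.Walk.length_cons] at hp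
          omega
  have hzw : z ≠ w := by
    rintro rfl
    exact hvw hz1
  have mk : ∀ (s : ℕ) (x y : V × Fin (s + 1)), x ≠ y →
      (¬ (G.Adj x.1 y.1 ∧ (x.2 : ℕ) + (y.2 : ℕ) ≤ s)) → (jetGraph s G)ᶜ.Adj x y :=
    fun s x y hxy h => ⟨hxy, h⟩
  by_cases hzw2 : G.Adj z w
  · -- paw: triangle `z, u, w` and `v ~ z`
    let p : V × Fin 3 := (z, 2)
    let q : V × Fin 3 := (u, 1)
    let r : V × Fin 3 := (v, 0)
    let t : V × Fin 3 := (w, 1)
    have hpq : (jetGraph 2 G)ᶜ.Adj p q := mk 2 p q (by simp [p, q]) (by simp [p, q])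
    have hqr : (jetGraph 2 G)ᶜ.Adj q r := mk 2 q r (by simp [q, r]) (by simp [q, r, huv])
    have hrt : (jetGraph 2 G)ᶜ.Adj r t := mk 2 r t (by simp [r, t]) (by simp [r, t, hvw])
    have htp : (jetGraph 2 G)ᶜ.Adj t p := mk 2 t p (by simp [t, p]) (by simp [t, p])
    rcases h2.four hpq hqr hrt htp (by simp [p, r]) (by simp [q, t, huw.ne]) with h | h
    · exact h.2 ⟨hz1.symm, by simp [p, r]⟩
    · exact h.2 ⟨huw, by simp [q, t]⟩
  · -- induced path `v - z - u - w`
    let p : V × Fin 2 := (z, 1)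
    let q : V × Fin 2 := (u, 1)
    let r : V × Fin 2 := (v, 0)
    let t : V × Fin 2 := (w, 0)
    have hpq : (jetGraph 1 G)ᶜ.Adj p q := mk 1 p q (by simp [p, q, hz2.ne]) (by simp [p, q])
    have hqr : (jetGraph 1 G)ᶜ.Adj q r := mk 1 q r (by simp [q, r]) (by simp [q, r, huv])
    have hrt : (jetGraph 1 G)ᶜ.Adj r t := mk 1 r t (by simp [r, t, hvw']) (by simp [r, t, hvw])
    have htp : (jetGraph 1 G)ᶜ.Adj t p :=
      mk 1 t p (by simp [t, p]) (fun e => hzw2 (G.adj_symm e.1))
    rcases h1.four hpq hqr hrt htp (by simp [p, r]) (by simp [q, t]) with h | h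
    · exact h.2 ⟨hz1.symm, by simp [p, r]⟩
    · exact h.2 ⟨huw, by simp [q, t]⟩

/-- The paw: a triangle `0, 1, 2` with a pendant vertex `3` attached to `0`. -/
def paw : SimpleGraph (Fin 4) where
  Adj i j := i ≠ j ∧ (i = 0 ∨ j = 0 ∨ (i ≠ 3 ∧ j ≠ 3))
  symm := by
    constructor
    intro i j h
    exact ⟨h.1.symm, by tauto⟩
  loopless := by
    constructor
    intro i h
    exact h.1 rfl

instance : DecidableRel paw.Adj := fun i j =>
  inferInstanceAs (Decidable (i ≠ j ∧ (i = 0 ∨ j = 0 ∨ (i ≠ 3 ∧ j ≠ 3))))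

instance (s : ℕ) : DecidableRel (jetGraph s paw).Adj := fun p q =>
  inferInstanceAs (Decidable (paw.Adj p.1 q.1 ∧ (p.2 : ℕ) + (q.2 : ℕ) ≤ s))

theorem paw_diam : HasDiamTwo paw := by
  have hadj : ∀ i : Fin 4, i ≠ 0 → paw.Adj 0 i := by decide
  have hreach : ∀ i : Fin 4, paw.Reachable 0 i := by
    intro i
    by_cases h : i = 0
    · rw [h]
    · exact (hadj i h).reachable
  have hconn : paw.Connected := by
    rw [SimpleGraph.connected_iff]
    exact ⟨fun i j => (hreach i).symm.trans (hreach j), inferInstance⟩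
  have hle : ∀ i : Fin 4, paw.dist 0 i ≤ 1 := by
    intro i
    by_cases h : i = 0
    · rw [h]; simp
    · exact (SimpleGraph.dist_eq_one_iff_adj.2 (hadj i h)).le
  refine ⟨hconn, ?_, 1, 3, ?_⟩
  · intro u v
    have h1 := hle u
    have h2 := hle v
    have h3 : paw.dist u v ≤ paw.dist u 0 + paw.dist 0 v := hconn.dist_triangle
    rw [SimpleGraph.dist_comm (u := u) (v := 0)] at h3
    omega
  · have h1 := hle 1
    have h2 := hle 3
    have h3 : paw.dist 1 3 ≤ paw.dist 1 0 + paw.dist 0 3 := hconn.dist_triangle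
    rw [SimpleGraph.dist_comm (u := 1) (v := 0)] at h3
    have h4 : paw.dist 1 3 ≠ 1 := by
      intro e
      have := SimpleGraph.dist_eq_one_iff_adj.1 e
      revert this
      decide
    have h5 : paw.dist 1 3 ≠ 0 := by
      intro e
      have := (hconn.dist_eq_zero_iff).1 e
      revert this
      decide
    omega

theorem paw_coChordal : IsCoChordal paw := by
  refine isChordal_of_order (fun i => (i : ℕ)) Fin.val_injective ?_
  decide

theorem paw_jet_one : IsCoChordal (jetGraph 1 paw) := by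
  refine isChordal_of_order (fun p => 2 * (p.1 : ℕ) + (p.2 : ℕ)) ?_ ?_
  · intro p q h
    have h' : 2 * (p.1 : ℕ) + (p.2 : ℕ) = 2 * (q.1 : ℕ) + (q.2 : ℕ) := h
    have h1 := p.2.isLt
    have h2 := q.2.isLt
    ext
    · omega
    · omega
  · simp only [SimpleGraph.compl_adj]
    intro x y z h1 h2 h3
    have key : ∀ x y z : Fin 4 × Fin 2, 2 * (x.1 : ℕ) + (x.2 : ℕ) < 2 * (y.1 : ℕ) + (y.2 : ℕ) →
        2 * (x.1 : ℕ) + (x.2 : ℕ) < 2 * (z.1 : ℕ) + (z.2 : ℕ) → y ≠ z →
        (x ≠ y ∧ ¬ (paw.Adj x.1 y.1 ∧ (x.2 : ℕ) + (y.2 : ℕ) ≤ 1)) →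
        (x ≠ z ∧ ¬ (paw.Adj x.1 z.1 ∧ (x.2 : ℕ) + (z.2 : ℕ) ≤ 1)) →
        (y ≠ z ∧ ¬ (paw.Adj y.1 z.1 ∧ (y.2 : ℕ) + (z.2 : ℕ) ≤ 1)) := by decide
    exact key x y z h1 h2 h3

theorem paw_jet_two : ¬ IsCoChordal (jetGraph 2 paw) := by
  intro h
  have := trans_of_jets paw paw_diam paw_jet_one h 1 3 2 (by decide) (by decide)
  exact this (by decide)

/-- **Main theorem.** For a positive integer `n` there is a co-chordal graph of diameter two whose
jet graphs of orders `1, …, n` are co-chordal while the jet graph of order `n + 1` is not, if and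
only if `n = 1`. -/
theorem result (n : ℕ) (hn : 1 ≤ n) :
    (∃ (V : Type) (_ : Fintype V) (G : SimpleGraph V), IsCoChordal G ∧ HasDiamTwo G ∧
      (∀ i, 1 ≤ i → i ≤ n → IsCoChordal (jetGraph i G)) ∧ ¬ IsCoChordal (jetGraph (n + 1) G)) ↔
    n = 1 := by
  constructor
  · rintro ⟨V, _, G, _, hdiam, hjet, hnot⟩
    by_contra hne
    apply hnot
    apply jet_coChordal_of_trans
    exact trans_of_jets G hdiam (hjet 1 le_rfl hn) (hjet 2 (by omega) (by omega))
  · rintro rfl
    refine ⟨Fin 4, inferInstance, paw, paw_coChordal, paw_diam, ?_, paw_jet_two⟩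
    intro i h1 h2
    obtain rfl : i = 1 := by omega
    exact paw_jet_one

end Pool.Agent.Results.MP_bdbea1_co.JetCoChordal
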